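import Pool.Agent.helper82.MC.N2
import Pool.Agent.helper10.FQ.D2

/-! # Project MC, module N4: decomposition modulo `D`, from N1 and N3 -/

namespace Pool.Agent.helper76.MC

open Finset Pool.Agent.helper34.DH Pool.Agent.helper76.FV Pool.Agent.helper76.LP
open Pool.Agent.helper76.UR
open Matrix (SpecialLinearGroup)

/-- N4 from N1 (`nd_gen`) and the second statement of N3 (`nu_exists`) -/
theorem ndec_gen_of (D : ℕ) [NeZero D]
    (N1 : ∀ (Γ : ℕ → Subgroup (ZMod D)ˣ) (L : List ℕ) (i : ℕ)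
      (_ : (L ++ [i]).Nodup) (_ : Indep Γ (L ++ [i])) (ν : ℕ → (ZMod D)ˣ)
      (_ : ∀ j ∈ L ++ [i], ν j ∈ Γ j ∧ ν j * ν j = 1 ∧ ν j ≠ 1) (f : (ZMod D)ˣ → ℤ)
      (_ : ∀ x, f (((L ++ [i]).map ν).prod * x) = - f x) (_ : MDv Γ (L ++ [i]) f)
      (_ : Even (L ++ [i]).length → ∀ x, Even (par ν L f x)),
      GDec Γ (L ++ [i]) ((L ++ [i]).map ν).prod f)
    (L : List ℕ) (q : ℕ) (htop : Pl (Gam D) (L ++ [q]) = ⊤)
    (hLn : (L ++ [q]).Nodup)
    (hL : (L ++ [q]).toFinset = D.primeFactors) (ν : ℕ → (ZMod D)ˣ)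
    (hν : ∀ p ∈ L ++ [q], ν p ∈ Gam D p ∧ ν p * ν p = 1 ∧ ν p ≠ 1)
    (hprod : ((L ++ [q]).map ν).prod = -1) (f : (ZMod D)ˣ → ℤ) (hodd : ∀ x, f (-x) = - f x)
    (hf : MDv (Gam D) (L ++ [q]) f) (hpar : Even (L ++ [q]).length → Even (par ν L f 1)) :
    NDec D f := by
  have hI : Indep (Gam D) (L ++ [q]) := indep_Gam D _ hLn fun r hr => by
    rw [← hL, List.mem_toFinset]; exact hr
  have hodd' : ∀ x, f (((L ++ [q]).map ν).prod * x) = - f x := by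
    intro x
    rw [hprod, neg_one_mul, hodd]
  apply D2_ndec_of_gdec D (L ++ [q]) hLn hL f
  rw [← hprod]
  exact N1 (Gam D) L q hLn hI ν hν f hodd' hf fun hev =>
    par_const (Gam D) L q hLn ν (fun j hj => ⟨(hν j hj).1, (hν j hj).2.1⟩) htop f hodd' hf
      (hpar hev)

end Pool.Agent.helper76.MC
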