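import Pool.Agent.helper76.MC.Defs

/-! # Project MC, module N2: parity -/

namespace Pool.Agent.helper76.MC

open Finset Pool.Agent.helper34.DH Pool.Agent.helper76.FV Pool.Agent.helper76.LP
open Pool.Agent.helper76.UR
open Matrix (SpecialLinearGroup)

section N2
variable {G ι : Type*} [CommGroup G]

theorem N2_mdv_perm (Γ : ι → Subgroup G) {L L' : List ι} (h : L.Perm L') :
    ∀ f : G → ℤ, MDv Γ L f → MDv Γ L' f := by
  induction h with
  | nil => exact fun f hf => hf
  | cons i _ ih => exact fun f hf u hu => ih _ (hf u hu)
  | swap i j L =>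
    intro f hf u hu v hv
    have h := hf v hv u hu
    have e : (fun x => (fun x => f (u * x) - f x) (v * x) - (fun x => f (u * x) - f x) x) =
        fun x => (fun x => f (v * x) - f x) (u * x) - (fun x => f (v * x) - f x) x := by
      funext x
      simp only [mul_left_comm u v x]
      ring
    rw [e]
    exact h
  | trans _ _ ih1 ih2 => exact fun f hf => ih2 f (ih1 f hf)

theorem N2_par_perm (ν : ι → G) {L L' : List ι} (h : L.Perm L') :
    ∀ f : G → ℤ, par ν L f = par ν L' f := by
  induction h with
  | nil => exact fun f => rfl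
  | cons i _ ih => exact fun f => ih _
  | swap i j L =>
    intro f
    show par ν L (fun x => (fun x => f (ν j * x) + f x) (ν i * x) + (fun x => f (ν j * x) + f x) x) =
      par ν L (fun x => (fun x => f (ν i * x) + f x) (ν j * x) + (fun x => f (ν i * x) + f x) x)
    congr 1
    funext x
    simp only [mul_left_comm (ν i) (ν j) x]
    ring
  | trans _ _ ih1 ih2 => exact fun f => (ih1 f).trans (ih2 f)

theorem N2_par_neg (ν : ι → G) (L : List ι) : ∀ f : G → ℤ,
    par ν L (fun x => - f x) = fun x => - par ν L f x := by
  induction L with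
  | nil => exact fun f => rfl
  | cons i L ih =>
    intro f
    show par ν L (fun x => - f (ν i * x) + - f x) = fun x => - par ν L (fun x => f (ν i * x) + f x) x
    rw [← ih]
    congr 1
    funext x
    ring

theorem N2_par_add (ν : ι → G) (L : List ι) : ∀ f g : G → ℤ,
    par ν L (fun x => f x + g x) = fun x => par ν L f x + par ν L g x := by
  induction L with
  | nil => exact fun f g => rfl
  | cons i L ih =>
    intro f g
    show par ν L (fun x => (f (ν i * x) + g (ν i * x)) + (f x + g x)) =
      fun x => par ν L (fun x => f (ν i * x) + f x) x + par ν L (fun x => g (ν i * x) + g x) x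
    rw [← ih]
    congr 1
    funext x
    ring

theorem N2_par_shift (ν : ι → G) (L : List ι) : ∀ (f : G → ℤ) (g : G),
    par ν L (fun x => f (g * x)) = fun x => par ν L f (g * x) := by
  induction L with
  | nil => exact fun f g => rfl
  | cons i L ih =>
    intro f g
    show par ν L (fun x => f (g * (ν i * x)) + f (g * x)) =
      fun x => par ν L (fun x => f (ν i * x) + f x) (g * x)
    rw [← ih (fun x => f (ν i * x) + f x) g]
    congr 1
    funext x
    rw [mul_left_comm]

/-- the last step of `par` -/
theorem N2_par_cons (ν : ι → G) (i : ι) (L : List ι) (f : G → ℤ) (x : G) :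
    par ν (i :: L) f x = par ν L f (ν i * x) + par ν L f x := by
  show par ν L (fun x => f (ν i * x) + f x) x = _
  rw [N2_par_add ν L (fun x => f (ν i * x)) f, N2_par_shift]

/-- invariance under the product of all elements -/
theorem N2_par_inv (ν : ι → G) (L : List ι) (hν : ∀ j ∈ L, ν j * ν j = 1) :
    ∀ (f : G → ℤ) (x : G), par ν L f ((L.map ν).prod * x) = par ν L f x := by
  induction L with
  | nil => intro f x; simp
  | cons i L ih =>
    intro f x
    rw [N2_par_cons, N2_par_cons, List.map_cons, List.prod_cons]
    have hi : ν i * ν i = 1 := hν i List.mem_cons_self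
    have ih' := ih (fun j hj => hν j (List.mem_cons_of_mem _ hj)) f
    have e1 : ν i * (ν i * (L.map ν).prod * x) = (L.map ν).prod * x := by
      rw [← mul_assoc, ← mul_assoc, hi, one_mul]
    have e2 : ν i * (L.map ν).prod * x = (L.map ν).prod * (ν i * x) := by
      rw [mul_comm (ν i), mul_assoc]
    rw [e1, e2, ih', ih']
    ring

theorem N2_par_odd (ν : ι → G) (L : List ι) (e : G) (f : G → ℤ)
    (hodd : ∀ x, f (e * x) = - f x) (x : G) : par ν L f (e * x) = - par ν L f x := by
  have h1 := congrFun (N2_par_shift ν L f e) x
  have h2 : (fun x => f (e * x)) = fun x => - f x := funext hodd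
  rw [h2, N2_par_neg] at h1
  exact h1.symm

/-- the parity of a vanishing iterated difference -/
theorem N2_even_of_mdv (Γ : ι → Subgroup G) (ν : ι → G) (L : List ι)
    (hν : ∀ j ∈ L, ν j ∈ Γ j) : ∀ (f : G → ℤ), MDv Γ L f → ∀ x, Even (par ν L f x) := by
  induction L with
  | nil =>
    intro f hf x
    have : f x = 0 := hf x
    show Even (f x)
    rw [this]
    exact Even.zero
  | cons i L ih =>
    intro f hf x
    have h1 := ih (fun j hj => hν j (List.mem_cons_of_mem _ hj)) _
      (hf (ν i) (hν i List.mem_cons_self)) x
    rw [N2_par_cons]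
    have e : (fun x => f (ν i * x) - f x) = fun x => f (ν i * x) + (fun x => - f x) x := by
      funext x
      ring
    rw [e, N2_par_add ν L (fun x => f (ν i * x)) (fun x => - f x), N2_par_shift,
      N2_par_neg] at h1
    obtain ⟨k, hk⟩ := h1
    exact ⟨k + par ν L f x, by linarith⟩

/-- the sums over the subsets without one element agree modulo two -/
theorem N2_par_swap (ν : ι → G) (R : List ι) (i j : ι)
    (hν : ∀ k ∈ i :: j :: R, ν k * ν k = 1) (f : G → ℤ)
    (hodd : ∀ x, f (((i :: j :: R).map ν).prod * x) = - f x) (x : G) :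
    Even (par ν (i :: R) f x - par ν (j :: R) f x) := by
  rw [N2_par_cons, N2_par_cons]
  have hi : ν i * ν i = 1 := hν i (by simp)
  have h1 := N2_par_odd ν R _ f hodd (ν i * x)
  have h2 : ((i :: j :: R).map ν).prod * (ν i * x) = (R.map ν).prod * (ν j * x) := by
    rw [List.map_cons, List.prod_cons, List.map_cons, List.prod_cons]
    calc ν i * (ν j * (R.map ν).prod) * (ν i * x)
        = (ν i * ν i) * ((R.map ν).prod * (ν j * x)) := by
          simp only [mul_assoc, mul_comm, mul_left_comm]
      _ = _ := by rw [hi, one_mul]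
  rw [h2, N2_par_inv ν R (fun k hk => hν k (by simp [hk]))] at h1
  exact ⟨par ν R f (ν i * x), by linarith⟩

end N2

/-- parity of the sums over the subsets of `L` -/
theorem par_const {G ι : Type*} [CommGroup G] (Γ : ι → Subgroup G) (L : List ι) (i : ι)
    (hnd : (L ++ [i]).Nodup) (ν : ι → G)
    (hν : ∀ j ∈ L ++ [i], ν j ∈ Γ j ∧ ν j * ν j = 1) (htop : Pl Γ (L ++ [i]) = ⊤) (f : G → ℤ)
    (hodd : ∀ x, f (((L ++ [i]).map ν).prod * x) = - f x) (hf : MDv Γ (L ++ [i]) f)
    (h1 : Even (par ν L f 1)) : ∀ x, Even (par ν L f x) := by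
  classical
  have key : ∀ j ∈ L ++ [i], ∀ g ∈ Γ j, ∀ x, Even (par ν L f (g * x) - par ν L f x) := by
    intro j hj g hg x
    -- the list without `j`
    have hperm : (L ++ [i]).Perm (j :: (L ++ [i]).erase j) := List.perm_cons_erase hj
    have hmd : MDv Γ ((L ++ [i]).erase j) (fun x => f (g * x) - f x) :=
      N2_mdv_perm Γ hperm f hf g hg
    have hA : Even (par ν ((L ++ [i]).erase j) f (g * x) - par ν ((L ++ [i]).erase j) f x) := by
      have h2 := N2_even_of_mdv Γ ν _ (fun k hk => (hν k (List.mem_of_mem_erase hk)).1) _ hmd x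
      have e : (fun x => f (g * x) - f x) = fun x => f (g * x) + (fun x => - f x) x := by
        funext x
        ring
      rw [e, N2_par_add ν _ (fun x => f (g * x)) (fun x => - f x), N2_par_shift,
        N2_par_neg] at h2
      exact h2
    by_cases hji : j = i
    · subst hji
      have hp : ((L ++ [j]).erase j).Perm L := by
        have h3 : (L ++ [j]).Perm (j :: L) := List.perm_append_singleton j L
        have h4 := h3.erase j
        rwa [List.erase_cons_head] at h4
      rw [N2_par_perm ν hp] at hA
      exact hA
    · have hjL : j ∈ L := by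
        rcases List.mem_append.1 hj with h | h
        · exact h
        · exact absurd (List.mem_singleton.1 h) hji
      have hpL : L.Perm (j :: L.erase j) := List.perm_cons_erase hjL
      have hp : ((L ++ [i]).erase j).Perm (i :: L.erase j) := by
        rw [List.erase_append_left _ hjL]
        exact List.perm_append_singleton i _
      have hfull : (L ++ [i]).Perm (i :: j :: L.erase j) :=
        (List.perm_append_singleton i L).trans (hpL.cons i)
      have hodd' : ∀ x, f (((i :: j :: L.erase j).map ν).prod * x) = - f x := by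
        intro y
        rw [← (hfull.map ν).prod_eq]
        exact hodd y
      have hs := N2_par_swap ν (L.erase j) i j
        (fun k hk => (hν k (hfull.mem_iff.2 hk)).2) f hodd'
      rw [N2_par_perm ν hp] at hA
      rw [N2_par_perm ν hpL]
      obtain ⟨a, ha⟩ := hA
      obtain ⟨b, hb⟩ := hs (g * x)
      obtain ⟨c, hc⟩ := hs x
      exact ⟨a - b + c, by linarith⟩
  -- the subgroup of elements preserving the parity
  let H : Subgroup G :=
    { carrier := {g | ∀ x, Even (par ν L f (g * x) - par ν L f x)}
      one_mem' := by intro x; simp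
      mul_mem' := by
        intro a b ha hb x
        obtain ⟨c, hc⟩ := ha (b * x)
        obtain ⟨d, hd⟩ := hb x
        rw [mul_assoc]
        exact ⟨c + d, by linarith⟩
      inv_mem' := by
        intro a ha x
        obtain ⟨c, hc⟩ := ha (a⁻¹ * x)
        rw [mul_inv_cancel_left] at hc
        exact ⟨- c, by linarith⟩ }
  have hPl : ∀ M : List ι, (∀ j ∈ M, j ∈ L ++ [i]) → Pl Γ M ≤ H := by
    intro M
    induction M with
    | nil => intro _; exact bot_le
    | cons j M ih =>
      intro hM
      exact sup_le (fun g hg => key j (hM j (by simp)) g hg)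
        (ih fun k hk => hM k (by simp [hk]))
  intro x
  have hx : x ∈ H := hPl (L ++ [i]) (fun j hj => hj) (by rw [htop]; trivial)
  have h2 := hx 1
  rw [mul_one] at h2
  obtain ⟨a, ha⟩ := h1
  obtain ⟨b, hb⟩ := h2
  exact ⟨a + b, by linarith⟩

end Pool.Agent.helper76.MC
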