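import Pool.Agent.helper82.MC.N4of
import Pool.Agent.helper58.MC.N1
import Pool.Agent.helper63.MC.N3

/-! # Project MC, module N4: decomposition modulo `D` -/

namespace Pool.Agent.helper76.MC

open Finset Pool.Agent.helper34.DH Pool.Agent.helper76.FV Pool.Agent.helper76.LP
open Pool.Agent.helper76.UR
open Matrix (SpecialLinearGroup)

theorem ndec_gen (D : ℕ) [NeZero D] (hD : Lform D) (L : List ℕ) (q : ℕ)
    (hLn : (L ++ [q]).Nodup)
    (hL : (L ++ [q]).toFinset = D.primeFactors) (ν : ℕ → (ZMod D)ˣ)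
    (hν : ∀ p ∈ L ++ [q], ν p ∈ Gam D p ∧ ν p * ν p = 1 ∧ ν p ≠ 1)
    (hprod : ((L ++ [q]).map ν).prod = -1) (f : (ZMod D)ˣ → ℤ) (hodd : ∀ x, f (-x) = - f x)
    (hf : MDv (Gam D) (L ++ [q]) f) (hpar : Even (L ++ [q]).length → Even (par ν L f 1)) :
    NDec D f :=
  ndec_gen_of D (fun Γ L i hnd hI ν hν f hodd hf hpar => nd_gen Γ L i hnd hI ν hν f hodd hf hpar)
    L q (nu_exists D hD (L ++ [q]) hLn hL).2.1 hLn hL ν hν hprod f hodd hf hpar

end Pool.Agent.helper76.MC
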